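import Pool.Agent.L7h3.QD.Stm

/-! Project QD, part QPT: the points of order four. -/

set_option autoImplicit false

open Filter Complex
open scoped Topology PeriodPair
open H667R3 hiding sq
open Pool.Agent.TH936.CM Pool.Agent.W192.HK

namespace Pool.Agent.L7h76.QD

open Pool.Agent.Y699
open Pool.Agent.L7h3.QD
open H385 (ZI RQ im1 nrm)
open Pool.Agent.H304R3.HK (tc)
open Pool.Agent.W164.RC (tc_mul tc_star two2)

variable {L : PeriodPair} {Ω : ℂ}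

lemma q_notMem (h : GLat L Ω) (a : ZI) (ha : ¬ (4 : ZI) ∣ a) : Ω * tc a / 4 ∉ L.lattice := by
  have := div_notMem h.lat (a := a) (b := 4) (by decide) ha
  have e : tc (4 : ZI) = 4 := by
    have := tc_int 4
    push_cast at this
    exact this
  rwa [e] at this

lemma nd4 (a : ZI) (ha : a.re % 4 ≠ 0 ∨ a.im % 4 ≠ 0) : ¬ (4 : ZI) ∣ a := by
  rintro ⟨c, hc⟩
  have r1 := congrArg Zsqrtd.re hc
  have r2 := congrArg Zsqrtd.im hc
  simp only [Zsqrtd.re_mul, Zsqrtd.im_mul] at r1 r2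
  have e1 : (4 : ZI).re = 4 := rfl
  have e2 : (4 : ZI).im = 0 := rfl
  rw [e1, e2] at r1 r2
  omega

theorem t_QPT : S_QPT := by
  intro L Ω h
  have n2 : 2 * (Ω / 4) ∉ L.lattice := by
    have e : 2 * (Ω / 4) = Ω / 2 := by ring
    rw [e]
    exact h.half
  obtain ⟨m1, m2⟩ := h.mul_pi n2
  have n3 : 2 * ((1 + I) * (Ω / 4)) ∉ L.lattice := by
    have := q_notMem h ⟨2, 2⟩ (nd4 _ (Or.inl (by decide)))
    have e : 2 * ((1 + I) * (Ω / 4)) = Ω * tc ⟨2, 2⟩ / 4 := by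
      unfold tc
      push_cast
      ring
    rwa [e]
  obtain ⟨m3, -⟩ := h.mul_pi n3
  have e0 := h.e1_sq
  have e1 : (1 + I) * ((1 + I) * (Ω / 4)) = I * (Ω / 2) := by
    linear_combination (Ω / 4) * I_sq
  rw [e1, wp_I h.lat] at m3
  have hq : ℘[L] ((1 + I) * (Ω / 4)) = -I * ℘[L] (Ω / 2) := by
    have h3 : (℘[L] ((1 + I) * (Ω / 4)) + I * ℘[L] (Ω / 2)) ^ 2 = 0 := by
      linear_combination -m3 + ℘[L] (Ω / 2) ^ 2 * I_sq - e0
    have h4 := pow_eq_zero_iff (two_ne_zero) |>.1 h3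
    linear_combination h4
  have hp : ℘[L] (Ω / 4) ^ 2 = 2 * ℘[L] (Ω / 2) * ℘[L] (Ω / 4) + 1 := by
    rw [hq] at m1
    linear_combination -m1 - (2 * ℘[L] (Ω / 4) * ℘[L] (Ω / 2)) * I_sq
  -- translation by a point of order two
  have w1 : I * (Ω / 2) ∉ L.lattice := by
    have := q_notMem h ⟨0, 2⟩ (nd4 _ (Or.inr (by decide)))
    have e : I * (Ω / 2) = Ω * tc ⟨0, 2⟩ / 4 := by
      unfold tc
      push_cast
      ring
    rwa [e]
  have w2 : Ω / 4 + I * (Ω / 2) ∉ L.lattice := by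
    have := q_notMem h ⟨1, 2⟩ (nd4 _ (Or.inr (by decide)))
    have e : Ω / 4 + I * (Ω / 2) = Ω * tc ⟨1, 2⟩ / 4 := by
      unfold tc
      push_cast
      ring
    rwa [e]
  have w3 : Ω / 4 - I * (Ω / 2) ∉ L.lattice := by
    have := q_notMem h ⟨1, -2⟩ (nd4 _ (Or.inr (by decide)))
    have e : Ω / 4 - I * (Ω / 2) = Ω * tc ⟨1, -2⟩ / 4 := by
      unfold tc
      push_cast
      ring
    rwa [e]
  have hadd := wp_add L n2 w1 w2 w3
  have hy0 : ℘'[L] (Ω / 2) = 0 := by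
    have e1 : ℘'[L] (-(Ω / 2) + (⟨Ω, h.om⟩ : L.lattice)) = ℘'[L] (-(Ω / 2)) :=
      L.derivWeierstrassP_add_coe _ ⟨Ω, h.om⟩
    have e2 : -(Ω / 2) + Ω = Ω / 2 := by ring
    rw [e2, L.derivWeierstrassP_neg] at e1
    have : (2 : ℂ) * ℘'[L] (Ω / 2) = 0 := by linear_combination e1
    exact (mul_eq_zero.1 this).resolve_left (by norm_num)
  have hz1 : Ω / 4 ∉ L.lattice := GLat.two_notMem n2
  have hpe : ℘[L] (Ω / 4) - ℘[L] (I * (Ω / 2)) ≠ 0 := by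
    rw [sub_ne_zero, Ne, wp_eq_iff L hz1 w1]
    tauto
  have hper : ℘[L] ((3 + 2 * I) * (Ω / 4)) = ℘[L] (Ω / 4 + I * (Ω / 2)) := by
    rw [← L.weierstrassP_neg (Ω / 4 + I * (Ω / 2))]
    apply wp_per
    have h9 := add_mem h.om (lat_I h.lat h.om)
    have e : (3 + 2 * I) * (Ω / 4) - -(Ω / 4 + I * (Ω / 2)) = Ω + I * Ω := by ring
    rwa [e]
  rw [wp_I h.lat, wp'_I h.lat, hy0, mul_zero, h.g2, sub_neg_eq_add, sub_zero] at hadd
  rw [wp_I h.lat, sub_neg_eq_add] at hpe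
  have heq := h.eqn hz1
  refine ⟨m2, hp, ?_, ?_⟩
  · rw [hper, hadd, eq_neg_iff_add_eq_zero]
    have heq' : ℘'[L] (Ω / 4) * ℘'[L] (Ω / 4) = 4 * ℘[L] (Ω / 4) ^ 3 - 4 * ℘[L] (Ω / 4) := by
      rw [← heq]; ring
    rw [heq']
    generalize ℘[L] (Ω / 4) = p at *
    generalize ℘[L] (Ω / 2) = e at *
    field_simp
    linear_combination (-4 * p * e - 4 * e ^ 2) * hp - 8 * e * p * e0
  · unfold kp
    generalize ℘[L] (Ω / 4) = p at *
    generalize ℘[L] (Ω / 2) = e at *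
    field_simp
    linear_combination (p ^ 2 - 1 + 2 * e * p) * hp + 4 * p ^ 2 * e0

end Pool.Agent.L7h76.QD
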