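import Pool.Agent.L7h3.QD.Stm

/-! Project QD, parts UN and NZ: the division values are congruent to one. -/

set_option autoImplicit false

open Filter Complex
open scoped Topology PeriodPair
open H667R3 hiding sq
open Pool.Agent.TH936.CM Pool.Agent.W192.HK

namespace Pool.Agent.L7h76.QD

open Pool.Agent.Y699
open Pool.Agent.L7h3.QD
open H385 (ZI RQ im1 nrm)
open Pool.Agent.H304R3.HK (tc)
open Pool.Agent.W164.RC (tc_mul tc_star two2)

variable {L : PeriodPair} {Ω : ℂ}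

section val

variable {Γ : Type*} [LinearOrderedCommGroupWithZero Γ] {v : Valuation ℂ Γ} (h2 : v 2 < 1)
  (h : GLat L Ω)

lemma cg_v {x : ℂ} (hx : Cg v x 1) : v x = 1 := by
  have h1 : v (x - 1) < v 1 := by rw [map_one]; exact hx.s
  have h2 := Valuation.map_add_eq_of_lt_right v h1
  rw [sub_add_cancel, map_one] at h2
  exact h2

lemma cg_ne {x : ℂ} (hx : Cg v x 1) : x ≠ 0 := by
  rintro rfl
  have := cg_v hx
  rw [map_zero] at this
  exact zero_ne_one this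

lemma cg_inv {x : ℂ} (hx : Cg v x 1) : Cg v x⁻¹ 1 := by
  have h1 := cg_v hx
  have h0 := cg_ne hx
  refine ⟨by rw [map_inv₀, h1, inv_one], by rw [map_one], ?_⟩
  have e : x⁻¹ - 1 = -(x - 1) * x⁻¹ := by
    field_simp
    ring
  rw [e, map_mul, Valuation.map_neg, map_inv₀, h1, inv_one, mul_one]
  exact hx.s

include h2 in
lemma cg_sqrt {x : ℂ} (hs : Cg v (x ^ 2) 1) : Cg v x 1 := by
  have hv2 : v x = 1 := by
    apply v_pow_one (n := 2) (by norm_num)
    rw [← map_pow]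
    exact cg_v hs
  refine ⟨hv2.le, by rw [map_one], ?_⟩
  have h5 : v ((x - 1) ^ 2) < 1 := by
    have e : (x - 1) ^ 2 = (x ^ 2 - 1) - 2 * (x - 1) := by ring
    rw [e]
    refine v.map_sub_lt hs.s ?_
    rw [map_mul]
    refine lt_of_le_of_lt (mul_le_of_le_one_right' ?_) h2
    exact v.map_sub_le hv2.le (by rw [map_one])
  rw [map_pow] at h5
  by_contra hc
  push Not at hc
  exact absurd h5 (not_lt.2 (one_le_pow₀ hc))

include h2 in
lemma cg_I : Cg v I 1 := by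
  refine ⟨by rw [v_I], by rw [map_one], ?_⟩
  have e : (I - 1 : ℂ) = I * (1 + I) := by linear_combination -I_sq
  rw [e, map_mul, v_I, one_mul]
  exact v_pi_lt h2

include h2 h in
lemma cg_wp {z : ℂ} (hz : OT L z) : Cg v (℘[L] z) 1 := by
  refine ⟨wp_le h2 h hz, by rw [map_one], ?_⟩
  rw [(wp_sub h2 h hz).1]
  exact v_pi_lt h2

include h2 h in
/-- `(x - 1) / (1 + i) = 1` modulo the valuation ideal -/
lemma cg_wp1 {z : ℂ} (hz : OT L z) : Cg v ((℘[L] z - 1) / (1 + I)) 1 := by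
  have h1I : (1 + I : ℂ) ≠ 0 := one_I_ne
  obtain ⟨h3, h4⟩ := h.mul_pi (hz.two h)
  have h1 := hz.pow h 1
  rw [pow_one] at h1
  have c1 := cg_wp h2 h hz
  have c2 := cg_wp h2 h h1
  set t := (℘[L] z - 1) / (1 + I) with ht
  have ex : ℘[L] z = 1 + (1 + I) * t := by
    rw [ht]
    field_simp
    ring
  have hvt : v t = 1 := by
    rw [ht, map_div₀, (wp_sub h2 h hz).1, div_self v_pi_ne]
  have key : t ^ 2 = ℘[L] z * ℘[L] ((1 + I) * z) - (1 - I) * t := by
    have e2 : (2 * I : ℂ) ≠ 0 := mul_ne_zero two_ne_zero I_ne_zero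
    apply mul_left_cancel₀ e2
    have h5 : 2 * I * (℘[L] z * ℘[L] ((1 + I) * z)) = (1 + (1 + I) * t) ^ 2 - 1 := by
      rw [← ex, ← h3]
      ring
    linear_combination (-1 : ℂ) * h5 - (t ^ 2 + 2 * t) * I_sq
  apply cg_sqrt h2
  rw [key]
  have c3 := c1.mul c2
  rw [one_mul] at c3
  have c4 : Cg v ((1 - I) * t) 0 := by
    apply Cg.zero
    rw [map_mul, hvt, mul_one]
    have e : (1 - I : ℂ) = -(I * (1 + I)) := by linear_combination I_sq
    rw [e, Valuation.map_neg, map_mul, v_I, one_mul]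
    exact v_pi_lt h2
  have := c3.sub c4
  rwa [sub_zero] at this

include h2 h in
/-- `(1 + I u u') / (1 + I) = 1` modulo the valuation ideal -/
lemma cg_s {z : ℂ} (hz : OT L z) : Cg v ((1 + I * ℘[L] ((1 + I) * z) *
    ℘[L] ((1 + I) * ((1 + I) * z))) / (1 + I)) 1 := by
  have h1I : (1 + I : ℂ) ≠ 0 := one_I_ne
  have h1 := hz.pow h 1
  rw [pow_one] at h1
  have h1' := h1.pow h 1
  rw [pow_one] at h1'
  set u := ℘[L] ((1 + I) * z)
  set u' := ℘[L] ((1 + I) * ((1 + I) * z))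
  have c1 := cg_wp1 h2 h h1
  have c2 := cg_wp1 h2 h h1'
  have c3 := cg_wp h2 h h1
  have c4 := ((c3.mul c2).add c1)
  have c5 := (cg_I h2).mul c4
  have c6 : Cg v (1 : ℂ) 1 := Cg.refl (by rw [map_one])
  have c7 := c6.add c5
  have e : (1 + I * u * u') / (1 + I) = 1 + I * (u * ((u' - 1) / (1 + I)) + (u - 1) / (1 + I)) := by
    field_simp
    ring
  rw [e]
  refine c7.trans ?_
  refine ⟨?_, by rw [map_one], ?_⟩
  · have e : (1 + 1 * (1 * 1 + 1) : ℂ) = ((3 : ℕ) : ℂ) := by norm_num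
    rw [e]
    exact v_nat 3
  · have e : (1 + 1 * (1 * 1 + 1) - 1 : ℂ) = 2 := by norm_num
    rw [e]
    exact h2

include h in
lemma qp_eq {z : ℂ} (hz : OT L z) : qp L z = -8 * ℘[L] z ^ 2 * (1 + I * ℘[L] ((1 + I) * z) *
    ℘[L] ((1 + I) * ((1 + I) * z))) := by
  have h1 := hz.pow h 1
  rw [pow_one] at h1
  obtain ⟨m1, -⟩ := h.mul_pi (hz.two h)
  obtain ⟨m2, -⟩ := h.mul_pi (h1.two h)
  unfold qp
  set x := ℘[L] z
  set u := ℘[L] ((1 + I) * z)
  set u' := ℘[L] ((1 + I) * ((1 + I) * z))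
  have e1 : x ^ 4 - 6 * x ^ 2 + 1 = (x ^ 2 - 1) ^ 2 - 4 * x ^ 2 := by ring
  rw [e1, ← m1]
  linear_combination (4 * x ^ 2) * m2 + (4 * x ^ 2 * u ^ 2) * I_sq

end val

theorem t_NZ : S_NZ := by
  intro L Ω h z hz
  obtain ⟨B, hB⟩ := exists_val
  obtain ⟨-, m1⟩ := h.mul_pi (hz.two h)
  refine ⟨m1, ?_⟩
  rw [qp_eq h hz]
  have h1I : (1 + I : ℂ) ≠ 0 := one_I_ne
  have h3 := cg_ne (cg_s hB h hz)
  have h4 : (1 + I * ℘[L] ((1 + I) * z) * ℘[L] ((1 + I) * ((1 + I) * z))) ≠ 0 := by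
    intro h0
    rw [h0, zero_div] at h3
    exact h3 rfl
  exact mul_ne_zero (mul_ne_zero (by norm_num) (pow_ne_zero 2 m1)) h4

theorem t_UN : S_UN := by
  intro L Ω h Γ _ v h2 z hz
  have h1I : (1 + I : ℂ) ≠ 0 := one_I_ne
  obtain ⟨m1, m2⟩ := h.mul_pi (hz.two h)
  have h1 := hz.pow h 1
  rw [pow_one] at h1
  have heq := h.eqn hz.nm
  have hc1 := cg_wp h2 h h1
  have hs := cg_s h2 h hz
  have hqp := qp_eq h hz
  have hs0 := cg_ne hs
  have hu0 := cg_ne hc1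
  unfold ga gd
  set x := ℘[L] z
  set y := ℘'[L] z
  set u := ℘[L] ((1 + I) * z)
  set u' := ℘[L] ((1 + I) * ((1 + I) * z))
  set s := (1 + I * u * u') / (1 + I) with hsd
  have hse : 1 + I * u * u' = (1 + I) * s := by
    rw [hsd]
    field_simp
  rw [hse] at hqp
  have hy : y ^ 2 = 8 * I * x ^ 2 * u := by
    rw [heq]
    linear_combination (-4 * x) * m1
  have hone : v (-1 : ℂ) ≤ 1 := by rw [Valuation.map_neg, map_one]
  have cI := cg_I (v := v) h2
  refine ⟨?_, ?_⟩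
  · apply cg_sqrt h2
    have e : (y / (x * (1 + I) ^ 3)) ^ 2 = (-1) * u := by
      rw [div_pow, hy, mul_pow, div_eq_iff (mul_ne_zero (pow_ne_zero 2 m2)
        (pow_ne_zero 2 (pow_ne_zero 3 h1I)))]
      have e6 : ((1 + I : ℂ) ^ 3) ^ 2 = -8 * I := by
        have e2 : (1 + I : ℂ) ^ 2 = 2 * I := by linear_combination I_sq
        have e3 : ((1 + I : ℂ) ^ 3) ^ 2 = ((1 + I) ^ 2) ^ 3 := by ring
        rw [e3, e2]
        linear_combination (8 * I) * I_sq
      rw [e6]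
      ring
    rw [e]
    have := (cg_one_neg h2).mul hc1
    rwa [one_mul] at this
  · intro κ hκ w
    apply cg_sqrt h2
    have e2 : (1 + I : ℂ) ^ 2 = 2 * I := by linear_combination I_sq
    have hsi := cg_inv hs
    have hD : (-8 * x ^ 2 * ((1 + I) * s)) ≠ 0 :=
      mul_ne_zero (mul_ne_zero (by norm_num) (pow_ne_zero 2 m2)) (mul_ne_zero h1I hs0)
    by_cases hw : w = 1
    · rw [if_pos hw, hqp]
      have e : ((1 + I) * κ * (x * y) / (-8 * x ^ 2 * ((1 + I) * s))) ^ 2 = I * u * (s⁻¹ * s⁻¹) := by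
        have e3 : ((1 + I) * κ * (x * y)) ^ 2 = (1 + I) ^ 2 * κ ^ 2 * x ^ 2 * y ^ 2 := by ring
        have e4 : (-8 * x ^ 2 * ((1 + I) * s)) ^ 2 = 64 * x ^ 4 * (1 + I) ^ 2 * s ^ 2 := by ring
        rw [div_pow, e3, e4, hκ, hy, e2]
        field_simp
        ring
      rw [e]
      have := (cI.mul hc1).mul (hsi.mul hsi)
      rwa [one_mul, one_mul] at this
    · rw [if_neg hw, hqp, ← m1]
      have e : ((1 + I) * (κ / 2) * (y * (2 * I * x * u)) / (-8 * x ^ 2 * ((1 + I) * s))) ^ 2 =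
          (-1) * (I * (u * (u * u)) * (s⁻¹ * s⁻¹)) := by
        have e3 : ((1 + I) * (κ / 2) * (y * (2 * I * x * u))) ^ 2 =
            (1 + I) ^ 2 * κ ^ 2 * x ^ 2 * y ^ 2 * (u ^ 2 * I ^ 2) := by ring
        have e4 : (-8 * x ^ 2 * ((1 + I) * s)) ^ 2 = 64 * x ^ 4 * (1 + I) ^ 2 * s ^ 2 := by ring
        rw [div_pow, e3, e4, hκ, hy, e2, I_sq]
        field_simp
        ring
      rw [e]
      have := (cg_one_neg h2).mul ((cI.mul (hc1.mul (hc1.mul hc1))).mul (hsi.mul hsi))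
      rwa [one_mul, one_mul, one_mul, one_mul, one_mul] at this

end Pool.Agent.L7h76.QD
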